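import Pool.Agent.K9h63.DV.Upper
import Pool.Agent.K9h63.DV.Expl
import Pool.Agent.K9h63.DV.Ori
import Pool.Agent.K9h63.DV.Ind

/-!
# Vertex cover: decomposable circuits and their complements have no constant ratio

The definitions used in the statement are in `Pool/Agent/K9h63/DV/Defs.lean`: graphs with the
vertices `0, …, n - 1` are given by their adjacency bits (`Slot`, `Gr`); `HasCover x s`: the graph `x`
has a vertex cover with at most `s` vertices; `Tells f s s'`: `f` accepts all graphs with a vertex
cover with at most `s` vertices and rejects all graphs without a vertex cover with at most `s'`
vertices; `Circ b l`: `l` lists the gates of a decomposable circuit, whose inputs are arbitrary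
functions of at most `b` adjacency bits, with disjunctions of arbitrary gates and conjunctions of
gates with disjoint sets of variables.

Idea of the proof. A decomposable circuit with `s` gates and small inputs is a disjunction of at most
`(4 ^ K * s) ^ (2 * K)` functions, each of which is a conjunction of functions of `K` disjoint sets of
at most `2 * b` bits, the parts of the function (it does not depend on the other bits).

(a) Let the circuit accept the graphs with a small vertex cover. Each graph accepted by one of
these functions has an independent set `J` with `ε n` vertices. Let the function accept the graph of
the pairs that touch `T` for the sets `T` in a family `F` of sets with `δ n` vertices. For all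
`T_1, …, T_K ∈ F` it accepts the graph whose part `j` is that of `T_j`, so `T_j` avoids all vertices of
`J` at the pairs of part `j` in `J`; as the parts are small the numbers of these vertices have a large
sum, and so `F` is small.

(b) Let the circuit accept the graphs without small vertex covers. Most sparse random graphs have no
independent set with `ε n` vertices, so one of the functions accepts a graph which is not too rare.
Orient the pairs of each part such that all in-degrees are small. The vertices with an incoming
edge of the random graph are a vertex cover of the part, which is dominated by a random set in
which all vertices are independently with the same small probability, the same for all parts. By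
the blowing-up lemma there is one small set `S` such that for each part, after `δ n / (2 K)` changes,
it is a vertex cover of the part of a graph accepted by the function. The graph mixed from these
parts is accepted by the function and has a small vertex cover.
-/

set_option autoImplicit false

namespace Pool.Agent.Results.MP_cff830_lc.DecomposableCircuits

open Pool.Agent.K9h63.DV

/-- (1) For each `0 < ε ≤ 1` there are `c, M > 0` such that for all `0 < δ ≤ 1` and `n ≥ M / δ ^ 10`
every decomposable circuit whose inputs are arbitrary functions of at most `c δ ^ 2 n ^ 2` adjacency
bits and which accepts all graphs with `n` vertices with a vertex cover with at most `δ n` vertices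
and rejects all without a vertex cover with at most `(1 - ε) n` vertices, or rejects the former and
accepts the latter, has at least `exp (c δ ^ 8 n)` gates. So there is no constant ratio with
`exp (o(n))` gates and no ratio `n ^ γ`, `γ < 1 / 10`, with polynomially many gates.
(2) A decomposable circuit with at most `2 ^ n (n ^ 2 + 3)` gates, whose inputs are functions of
one bit, tells exactly which graphs have a vertex cover with at most `s` vertices. -/
theorem result :
    (∀ ε : ℝ, 0 < ε → ε ≤ 1 → ∃ c : ℝ, 0 < c ∧ ∃ M : ℝ, 0 < M ∧ ∀ δ : ℝ, 0 < δ → δ ≤ 1 →
      ∀ n : ℕ, M ≤ δ ^ 10 * n →
      ∀ l : List (Gate (Slot n)), Circ ⌊c * δ ^ 2 * (n : ℝ) ^ 2⌋₊ l → ∀ g ∈ l,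
        (Tells g.2 (δ * n) ((1 - ε) * n) ∨ Tells (fun x => ¬ g.2 x) (δ * n) ((1 - ε) * n)) →
          Real.exp (c * δ ^ 8 * n) ≤ l.length) ∧
    ∀ (n : ℕ) (s : ℝ), ∃ l : List (Gate (Slot n)), Circ 1 l ∧
      l.length ≤ 2 ^ n * (n ^ 2 + 3) ∧ ∃ g ∈ l, Tells g.2 s s :=
  ⟨circ_expl ori ind, circ_exact⟩

end Pool.Agent.Results.MP_cff830_lc.DecomposableCircuits
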