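import Pool.Agent.K9h49.VC.Main

set_option autoImplicit false

/-!
# Vertex cover on sparse graphs of large girth is as hard to approximate as in general

For all `g`, `ε > 0` and `0 ≤ c < c'`: a polynomial-time `c`-approximation algorithm for (unweighted)
vertex cover on the graphs of girth more than `g` and maximum degree at most `|V| ^ ε` gives a
polynomial-time `c'`-approximation algorithm for weighted vertex cover on all graphs (rational
weights in binary). Hence question Q1 has the same answer for all weighted graphs and for the
unweighted graphs of girth more than `g` and maximum degree at most `|V| ^ ε`. The reduction is
deterministic, and nothing unproved is assumed.

Proof. Weights are rounded and replaced by copies, for each possible largest weight of a vertex of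
an optimal cover. In the unweighted graph each vertex becomes a cloud of `N` vertices, and each edge
a random bipartite graph between two clouds, whose edges are given by the values of a polynomial of
bounded degree over a prime field (so that boundedly many of them are independent). All seeds are
tried. The vertices on short cycles and those of large degree are deleted; the algorithm is run on
the result, and each vertex most of whose cloud is covered is put in the cover. For a suitable seed
few vertices are deleted, and any two sets of `δ N` vertices in adjacent clouds are joined by an
edge; this follows from the expected trace of a high power of the centred adjacency matrix. See
`Pool/Agent/K9h49/VC/`: `Kw` (independence), `Tr`, `Cnt` (trace), `Ex` (good seeds), `Par`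
(parameters), `Alg`, `Red`, `Pt` (algorithm, correctness, running time), `Wt`, `Main` (weights).
-/

namespace Pool.Agent.Results.MP_cff830_lc.GirthSparse

open Pool.Agent.K9h49.VC

/-- If vertex cover with unit weights has a polynomial-time `c`-approximation algorithm on the
graphs all of whose cycles have length more than `g` and all of whose degrees are at most
`|V| ^ ε`, then weighted vertex cover has a polynomial-time `c'`-approximation algorithm on all
graphs, for every `c' > c`. -/
theorem result (g : ℕ) {ε c c' : ℝ} (hε : 0 < ε) (hc : 0 ≤ c) (hcc : c < c')
    (h : Approx (fun I => UnitW I ∧ Sparse g ε I) c) : Approx (fun _ => True) c' :=
  Pool.Agent.K9h49.VC.main g hε hc hcc h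

end Pool.Agent.Results.MP_cff830_lc.GirthSparse
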