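import Pool.Agent.K9h49.WB.Fin

set_option autoImplicit false

/-!
# Vertex cover without large webs, and without the induced minor `K_{t,t}`

For all `t ≥ 2` and `R`, weighted vertex cover (rational weights in binary) has a deterministic
polynomial-time approximation algorithm with a ratio less than `2`, namely
`ratio t R = 2 - 1 / (2 (t (2 t + R + 1) + 1) (2 ^ (t + 1) + 2)) ^ 2`, on the graphs that do not
have a `(t, R)`-web. A `(t, R)`-web consists of `t` connected sets `A i` (no two of which meet or
are adjacent) and `t` connected sets `B j` of at most `t + 1` vertices, any two of which have
distance more than `R` in the subgraph of `G` induced by the union of the `2 t` sets, such that each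
`A i` is disjoint from and adjacent to each `B j`. For `R = 1` a web is a model of `K_{t,t}` as an
induced minor, so the algorithm applies to the graphs without the induced minor `K_{t,t}`. Hence, if
question Q1 has a positive answer and `P ≠ NP`, the graphs on which vertex cover is hard to
approximate within a constant below `2` have `(t, R)`-webs for all `t` and `R`.

Proof. Let `D = t (2 t + R + 1)`. Let `G` have no odd cycle of length at most `2 D + 1`. Colour each
vertex by the parities of its levels in `t` nested breadth first searches: the `i`-th search is
carried out in the subgraph of the edges inside the levels of the previous searches. If a component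
of the subgraph of the edges inside all these levels has weak diameter more than `D`, it contains
`t` vertices at mutual distance at least `2 t + R + 1`, and the `i`-th hub `A i` is formed by the
paths from their neighbours in the previous level to the root of the `i`-th search; this is a web.
Otherwise each such component is 2-coloured by the parity of the distance to one of its vertices.
So the graph is properly coloured with `2 ^ (t + 1)` colours. In general, short odd cycles are
first packed greedily, and twins are identified (the weights are replaced by copies of vertices, and
this does not preserve the class). Together with an approximate kernel (an auction algorithm for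
the half-integral relaxation) and the rounding of the weights this gives the ratio. See
`Pool/Agent/K9h49/WB/`: `Web` (webs), `Ball` (searches), `Col` (colouring, packing), `Near`
(nearly bipartite graphs), `Lift` (all graphs and weights), `Pt` (running time), `Fin`.
-/

namespace Pool.Agent.Results.MP_cff830_lc.InducedMinorFree

open Pool.Agent.K9h49.VC Pool.Agent.K9h49.WB

/-- Weighted vertex cover has a polynomial-time approximation algorithm of ratio `ratio t R < 2` on
the graphs without `(t, R)`-webs, in particular (`R = 1`) on the graphs without the induced minor
`K_{t,t}`. -/
theorem result (t R : ℕ) (ht : 2 ≤ t) :
    ratio t R < 2 ∧ Approx (fun I => ¬ HasWeb t R (gr I)) (ratio t R) ∧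
      Approx (fun I => ¬ IsIndMinor (completeBipartiteGraph (Fin t) (Fin t)) (gr I))
        (ratio t 1) := by
  refine ⟨?_, approx_web t R ht, approx_minor t ht⟩
  unfold ratio
  have : (0 : ℝ) < 1 / (2 * (t * (2 * t + R + 1) + 1) * (2 ^ (t + 1) + 2)) ^ 2 := by positivity
  linarith

end Pool.Agent.Results.MP_cff830_lc.InducedMinorFree
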