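import Pool.Agent.K9h63.DV.CoFin

/-!
# Vertex cover: for `k` parties the best ratio is `k`, for two parties it is 2

The adjacency bits of a graph are distributed among `k` parties. The definitions used in the
statement are in `Pool/Agent/K9h63/DV/Defs.lean`: graphs with the vertices `0, …, n - 1` are given by
their adjacency bits (`Slot`, `Gr`); `HasCover x s`: the graph `x` has a vertex cover with at most `s`
vertices; `Tells f s s'`: `f` accepts all graphs with a vertex cover with at most `s` vertices and
rejects all graphs without a vertex cover with at most `s'` vertices; `Rectangle part R`: if the
graphs `X j` are in `R`, then so is the graph of which party `j` sees the same part as of `X j`;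
`deg part j v`: the number of the bits of party `j` at the vertex `v`. A protocol with few bits of
communication gives a family of few rectangles; a nondeterministic protocol is the same as a family of
rectangles whose union is the set of the accepted graphs.

Idea of the proof. Let a rectangle contain, for all sets `T` in a family `F` of sets with `t`
vertices, the graph of the pairs which touch `T`. For `T_1, …, T_k ∈ F` it contains the graph mixed
from them, and as all parties have many pairs at each vertex, the union of the `T_j` is contained in
each small vertex cover of this graph. If the union of any `k` members of `F` has at most `c t`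
vertices, `c < k`, then a greedy choice shows that all members of `F` are almost contained in the
union of fewer than `k` of them, so `F` is small. For the complements let the `T_j` be random and
independent. Their union has almost `k t` vertices, so the mixed graph is in one of the rectangles,
and in one rectangle party `j` can have `T_j` for many sets `T_j`, for each `j`. By the blowing-up
lemma there is a set `T` close to one of these sets for each `j`; the graph mixed from them is in the
rectangle and has a vertex cover with about `t` vertices.
-/

set_option autoImplicit false

namespace Pool.Agent.Results.MP_cff830_lc.PartyProtocols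

open Pool.Agent.K9h63.DV

/-- (1) Let `k ≥ 2`, `1 ≤ c < k` and `η > 0`. For all small `δ > 0` there is `κ > 0` such that for all
large `n` and all partitions of the adjacency bits among `k` parties, with at least `η n` bits of each
party at each vertex, each family of rectangles whose union, or the complement of whose union, tells
the graphs with `n` vertices with a vertex cover with at most `δ n` vertices from those without a
vertex cover with at most `c δ n` vertices has at least `exp (κ n)` members.
(2) For the ratio `k` one rectangle is enough, and `k` rectangles for the complement, for all
partitions and all sizes `s`.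
(3) For `η = 1 / (2 k)` and `n ≥ 4 k` there are partitions as in (1). -/
theorem result :
    (∀ k : ℕ, 2 ≤ k → ∀ c η : ℝ, 1 ≤ c → c < k → 0 < η → ∃ δ₀ : ℝ, 0 < δ₀ ∧
      ∀ δ : ℝ, 0 < δ → δ ≤ δ₀ → ∃ κ : ℝ, 0 < κ ∧
      ∃ n₀ : ℕ, ∀ n : ℕ, n₀ ≤ n → ∀ part : Slot n → Fin k, (∀ v j, η * n ≤ deg part j v) →
        ∀ (ι : Type) [Fintype ι] (R : ι → Gr n → Prop), (∀ i, Rectangle part (R i)) →
          (Tells (fun x => ∃ i, R i x) (δ * n) (c * (δ * n)) ∨
            Tells (fun x => ¬ ∃ i, R i x) (δ * n) (c * (δ * n))) →
          Real.exp (κ * n) ≤ Fintype.card ι) ∧
    (∀ (n k : ℕ) (part : Slot n → Fin k) (s : ℝ),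
      (∃ R : Gr n → Prop, Rectangle part R ∧ Tells R s (k * s)) ∧
      ∃ R : Fin k → Gr n → Prop, (∀ j, Rectangle part (R j)) ∧
        Tells (fun x => ¬ ∃ j, R j x) s (k * s)) ∧
    (∀ k n : ℕ, 1 ≤ k → 4 * k ≤ n →
      ∃ part : Slot n → Fin k, ∀ v j, (n : ℝ) / (2 * k) ≤ deg part j v) := by
  refine ⟨parties_both, fun n k part s => ⟨parties_upper n k part s, ?_⟩, exists_part⟩
  obtain ⟨R, _, h2, _, h4⟩ := parties_upper2 n k part s
  refine ⟨fun j x => ¬ R j x, h2, ?_⟩
  simpa only [not_exists, not_not] using h4

end Pool.Agent.Results.MP_cff830_lc.PartyProtocols
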